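import Pool.Agent.H.MP_0cad2f_co.helper47.Obj
import Pool.Agent.H.MP_0cad2f_co.helper11.Gauss
import Pool.Agent.H.MP_0cad2f_co.helper11.One

/-!
Measurability of the volumes of cones, of the regular event and of the flux bound.
-/

set_option autoImplicit false

namespace Pool.Agent.H.MP_0cad2f_co.helper96

open MeasureTheory ProbabilityTheory Matrix Finset
open Pool.Agent.H.MP_0cad2f_co.helper47
open scoped NNReal ENNReal

variable {n d : ℕ}

theorem measurable_dot {α : Type*} [MeasurableSpace α] {f g : α → Fin d → ℝ}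
    (hf : Measurable f) (hg : Measurable g) : Measurable fun x => f x ⬝ᵥ g x := by
  unfold dotProduct
  exact Finset.measurable_fun_sum _ fun j _ =>
    ((measurable_pi_apply j).comp hf).mul ((measurable_pi_apply j).comp hg)

theorem measurable_aG (G : Finset (Fin n)) :
    Measurable fun a : Fin n → Fin d → ℝ => aG a G := by
  unfold aG
  exact Finset.measurable_fun_sum _ fun i _ => measurable_pi_apply i

theorem measurable_cI (I : Idx n d) : Measurable fun a : Fin n → Fin d → ℝ => cI a I := by
  unfold cI
  exact Finset.measurable_fun_sum _ fun k _ => measurable_pi_apply (I k)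

theorem measurable_obj (G : Finset (Fin n)) (I : Idx n d) (L : ℝ) :
    Measurable fun q : (Fin n → Fin d → ℝ) × ℝ => obj q.1 G I L q.2 := by
  unfold obj
  exact (((measurable_aG G).comp measurable_fst).const_smul L).add
    (measurable_snd.smul ((measurable_cI I).comp measurable_fst))

theorem measurable_coneVol (G : Finset (Fin n)) (I B : Idx n d) (L R : ℝ) :
    Measurable fun q : (Fin n → Fin d → ℝ) × ℝ => coneVol q.1 B (obj q.1 G I L q.2) R := by
  have hS : MeasurableSet {p : ((Fin n → Fin d → ℝ) × ℝ) × (Fin d → ℝ) |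
      ‖p.2‖ ≤ R ∧ InCone p.1.1 B (p.2 + obj p.1.1 G I L p.1.2)} := by
    refine MeasurableSet.inter (measurableSet_le (measurable_snd.norm) measurable_const) ?_
    have h1 : {p : ((Fin n → Fin d → ℝ) × ℝ) × (Fin d → ℝ) |
        ∀ k, 0 ≤ nu p.1.1 B k ⬝ᵥ (p.2 + obj p.1.1 G I L p.1.2)} =
        ⋂ k, {p : ((Fin n → Fin d → ℝ) × ℝ) × (Fin d → ℝ) |
          0 ≤ nu p.1.1 B k ⬝ᵥ (p.2 + obj p.1.1 G I L p.1.2)} := by
      ext p
      simp
    change MeasurableSet {p : ((Fin n → Fin d → ℝ) × ℝ) × (Fin d → ℝ) |
        ∀ k, 0 ≤ nu p.1.1 B k ⬝ᵥ (p.2 + obj p.1.1 G I L p.1.2)}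
    rw [h1]
    refine MeasurableSet.iInter fun k => measurableSet_le measurable_const ?_
    exact measurable_dot ((helper11.TD.measurable_nu B k).comp
      (measurable_fst.comp measurable_fst))
      (measurable_snd.add ((measurable_obj G I L).comp measurable_fst))
  exact measurable_measure_prodMk_left hS

theorem isClosed_spans (G : Finset (Fin n)) (T : ℝ) :
    IsClosed {a : Fin n → Fin d → ℝ | Spans a G T} := by
  unfold Spans
  simp only [Set.setOf_forall]
  refine isClosed_iInter fun x => isClosed_le continuous_const ?_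
  unfold dotProduct
  fun_prop

theorem measurableSet_reg (c : Fin n → Fin d → ℝ) (G : Finset (Fin n)) (I : Idx n d)
    (Rg ρ₁ T : ℝ) : MeasurableSet {a : Fin n → Fin d → ℝ | Reg c a G I Rg ρ₁ T} := by
  have h1 : {a : Fin n → Fin d → ℝ | Reg c a G I Rg ρ₁ T} =
      (⋂ i, {a : Fin n → Fin d → ℝ | n2 (a i - c i) ≤ Rg}) ∩
      ({a | Good a I} ∩ ({a | n2 (vtx a I) ≤ ρ₁} ∩
        ((⋂ k, {a : Fin n → Fin d → ℝ | n2 (nu a I k) ≤ T}) ∩ {a | Spans a G T}))) := by
    ext a
    simp only [Set.mem_setOf_eq, Set.mem_inter_iff, Set.mem_iInter]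
    exact ⟨fun h => ⟨h.near, h.good, h.vtx_le, h.nu_le, h.spans⟩,
      fun h => ⟨h.1, h.2.1, h.2.2.1, h.2.2.2.1, h.2.2.2.2⟩⟩
  rw [h1]
  refine MeasurableSet.inter (MeasurableSet.iInter fun i => ?_)
    (MeasurableSet.inter (helper11.TD.measurableSet_good I) (MeasurableSet.inter ?_
      (MeasurableSet.inter (MeasurableSet.iInter fun k => ?_) (isClosed_spans G T).measurableSet)))
  · have h2 : Measurable fun a : Fin n → Fin d → ℝ => a i - c i :=
      (measurable_pi_apply i).sub measurable_const
    exact measurableSet_le (helper11.TD.measurable_n2.comp h2) measurable_const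
  · exact measurableSet_le (helper11.TD.measurable_n2.comp (helper11.TD.measurable_vtx I))
      measurable_const
  · exact measurableSet_le (helper11.TD.measurable_n2.comp (helper11.TD.measurable_nu I k))
      measurable_const

theorem measurable_fluxSum (G : Finset (Fin n)) (I : Idx n d) (A L M R : ℝ) :
    Measurable fun a : Fin n → Fin d → ℝ => fluxSum a G I A L M R := by
  classical
  unfold fluxSum
  refine Finset.measurable_fun_sum _ fun B _ =>
    Measurable.ite (helper11.TD.measurableSet_good B) ?_ measurable_const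
  refine Measurable.mul (Finset.measurable_fun_sum _ fun k _ => ?_) ?_
  · exact ENNReal.measurable_ofReal.comp ((measurable_dot (helper11.TD.measurable_nu B k)
      (measurable_cI I)).abs.const_mul A)
  · exact (measurable_coneVol G I B L (R + 1)).lintegral_prod_right'

end Pool.Agent.H.MP_0cad2f_co.helper96
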